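import Mathlib
import Pool.Agent.H87.GMC.Final

/-!
# The logarithm of the total mass of Gaussian multiplicative chaos need not be infinitely divisible

If `log M` is infinitely divisible and `M` has a finite fourth moment, then, with
`m k = E[M ^ k]`, one has `m 3 ^ 4 * m 1 ^ 4 ≤ m 4 * m 2 ^ 6`.  (Write `M = Z ^ n` in law of
independent copies, expand `E[(Z - 1) ^ 4] ≥ 0` and let `n → ∞`.)

For the covariance function `g x = G0 |x| + (β / μ) exp (-|x| ^ 2 / 2)`, where
`G0 r = ∫_1^∞ exp (-(u r) ^ 2 / 2) du / u` is `log (1 / r)` plus a bounded continuous function,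
the moments of the total mass converge as `μ → 0` (with `β` fixed) to those of the total mass of
the exponential of the smooth field with covariance `β exp (-|x| ^ 2 / 2)`, and those violate the
inequality when `β` is large, since then `m k` is of order
`exp (β k (k - 1) / 2) * β ^ (-d (k - 1) / 2)`.
-/

open MeasureTheory ProbabilityTheory Filter Topology Set
open scoped NNReal ENNReal

namespace Pool.Agent.Results.MP_6ad96e_pr.LogMassNotID

open Pool.Agent.H87.GMC

/-- For every dimension `d ≥ 1`, every ball and every weight there is `μ₀ > 0` such that for every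
`μ ∈ (0, μ₀)` there is an admissible covariance function `g` for which the law of the total mass
exists, is unique, charges only the positive half line, and for which the law of the logarithm of
the total mass is not infinitely divisible. -/
theorem result (d : ℕ) (hd : 1 ≤ d) (x₀ : Eu d) (r : ℝ) (hr : 0 < r) (φ : Eu d → ℝ)
    (hφc : ContinuousOn φ (Metric.closedBall x₀ r)) (hφ : ∀ x ∈ Metric.ball x₀ r, 0 < φ x) :
    ∃ μ₀ : ℝ, 0 < μ₀ ∧ μ₀ ≤ 2 * d ∧ ∀ μ : ℝ, 0 < μ → μ < μ₀ →
      ∃ g : Eu d → ℝ, IsKernel g ∧ ∃ ν : Measure ℝ,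
        IsTotalMassLaw g μ (Metric.ball x₀ r) φ ν ∧
        (∀ ν' : Measure ℝ, IsTotalMassLaw g μ (Metric.ball x₀ r) φ ν' → ν' = ν) ∧
        ν (Set.Iic 0) = 0 ∧
        ¬ IsInfDiv (ν.map Real.log) := by
  obtain ⟨C, c₀, hl⟩ := refM_isRef hr hφc hφ
  set l := refM x₀ r φ with hldef
  have hfin := hl.finite
  have hdom : IsDom l C := by
    refine ⟨hfin, hl.le.trans ?_⟩
    gcongr
    exact Measure.restrict_le_self
  have hl0 : l univ ≠ 0 := by
    intro h0
    have h1 := hl.measure_ball_pos
    have h2 : l (Metric.ball x₀ (r / 4)) ≤ 0 := by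
      rw [← h0]; exact measure_mono (subset_univ _)
    exact absurd h1 (not_lt.mpr h2)
  obtain ⟨β, hβ, n2, n4, hviol⟩ := hl.violation hd
  have hev := eventually_bounds hd C n2 n4 hviol
  obtain ⟨μ₁, hμ₁, hsub⟩ := mem_nhdsGT_iff_exists_Ioo_subset.mp hev
  have hd1 : (1:ℝ) ≤ d := by exact_mod_cast hd
  have hμ₁' : 0 < μ₁ := hμ₁
  refine ⟨min μ₁ (d / 2), lt_min hμ₁' (by linarith), (min_le_right _ _).trans (by linarith), ?_⟩
  intro μ hμ hμμ
  have hμ1 : μ < μ₁ := hμμ.trans_le (min_le_left _ _)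
  have hμd : μ < d := by
    have := hμμ.trans_le (min_le_right _ _)
    linarith
  obtain ⟨hB2, hB4, hB⟩ := hsub ⟨hμ, hμ1⟩
  have hc : 0 ≤ β / μ := by positivity
  refine ⟨gker (β / μ), isKernel_gker hd hc, ?_⟩
  obtain ⟨M, hM, hM0, hM2, hMD⟩ := exists_Minf hd hμ.le hμd hc hdom
  have hlaw : IsTotalMassLaw (gker (β / μ)) μ (Metric.ball x₀ r) φ (NoiseP.map M) :=
    isTotalMassLaw_map hd hμ.le hμd hc hdom hM hM2 hMD
      (fun f _ => refM_integral hφc hφ f)
  have hpos := Minf_pos hd hμ.le hμd hc hdom hl0 hM hM0 hM2 hMD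
  obtain ⟨i4, b4, b2, b3, b1⟩ := limit_bounds hd hμ hβ hdom hB4 hB2 hM hM0 hM2 hμd hMD
  refine ⟨NoiseP.map M, hlaw, fun ν' h' => hlaw.unique h', ?_, ?_⟩
  · rw [Measure.map_apply hM measurableSet_Iic]
    exact hpos
  · refine not_isInfDiv hM hpos i4 b4 b2 b3 b1 ENNReal.toReal_nonneg ?_
    have hΛt : l univ ≠ ∞ := measure_ne_top _ _
    have h3t : L3i l (fun x => β * gk 1 x) ≠ ∞ := by
      have h5 : L3i l (fun x => β * gk 1 x) ≤ eexp (3 * β) * l univ * l univ * l univ := by
        unfold L3i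
        calc ∫⁻ z, ∫⁻ y, ∫⁻ x, eexp (β * gk 1 (x - y) + β * gk 1 (x - z) + β * gk 1 (y - z))
              ∂l ∂l ∂l ≤ ∫⁻ _, ∫⁻ _, ∫⁻ _, eexp (3 * β) ∂l ∂l ∂l := by
              apply lintegral_mono
              intro z
              apply lintegral_mono
              intro y
              apply lintegral_mono
              intro x
              apply eexp_mono
              have e1 : β * gk 1 (x - y) ≤ β := mul_le_of_le_one_right hβ.le (gk_le_one 1 _)
              have e2 : β * gk 1 (x - z) ≤ β := mul_le_of_le_one_right hβ.le (gk_le_one 1 _)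
              have e3 : β * gk 1 (y - z) ≤ β := mul_le_of_le_one_right hβ.le (gk_le_one 1 _)
              linarith
          _ = _ := by rw [lintegral_const, lintegral_const, lintegral_const]
      refine ne_top_of_le_ne_top ?_ h5
      exact ENNReal.mul_ne_top (ENNReal.mul_ne_top (ENNReal.mul_ne_top (eexp_ne_top _) hΛt) hΛt) hΛt
    have h6 : L3i l (fun x => β * gk 1 x) ^ 4 * l univ ^ 4 ≠ ∞ :=
      ENNReal.mul_ne_top (ENNReal.pow_ne_top h3t) (ENNReal.pow_ne_top hΛt)
    have h7 := (ENNReal.toReal_lt_toReal (ne_top_of_lt hB) h6).mpr hB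
    rw [ENNReal.toReal_mul, ENNReal.toReal_mul, ENNReal.toReal_pow, ENNReal.toReal_pow,
      ENNReal.toReal_pow] at h7
    exact h7

end Pool.Agent.Results.MP_6ad96e_pr.LogMassNotID
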